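import Pool.Agent.H255.BC.All6
import Pool.Agent.H255.BC.Bridge

set_option autoImplicit false

open Pool.Agent.H255.BC

namespace Pool.Agent.Results.MP_357da3_an.BicentralizerFlow

/-- **The relative bicentralizer flow is the relative flow of weights.**  Let `N ⊂ M` be von
Neumann algebras on a separable Hilbert space `H`, `N` a factor of type III₁, let `E : M → N` be a
conditional expectation, `ξ` a cyclic and separating unit vector of `M` with vector state `φ`,
`φ ∘ E = φ`.  Then the modular group `U_t = Δ^{it}` of `φ`, the relative bicentralizer flow of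
`B(N ⊂ M, φ)` and the dominant weights of `N` exist, the first two are unique, and for every
dominant weight `ψ` of `N` there is a `*`-isomorphism `π` of the von Neumann algebra
`B(N ⊂ M, φ)` onto `(N_ψ)' ∩ M` with `π ∘ β_lam = θ^ψ_lam ∘ π` and `E(π(x)) = φ(E(x)) 1`. -/
theorem result (H : Type) [NormedAddCommGroup H] [InnerProductSpace ℂ H] [CompleteSpace H]
    [TopologicalSpace.SeparableSpace H] (N M : VonNeumannAlgebra H) (ξ : H)
    (E : (H →L[ℂ] H) → (H →L[ℂ] H)) (hI : Main.Inclusion N M ξ E) (h3 : Main.TypeIIIone N) :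
    ∃ U : ℝ → H →L[ℂ] H, Main.Modular M ξ U ∧ (∀ U', Main.Modular M ξ U' → U' = U) ∧
      (∃ β, Main.BicFlow N M ξ β) ∧
      (∀ β β', Main.BicFlow N M ξ β → Main.BicFlow N M ξ β' →
        ∀ lam : ℝ, 0 < lam → ∀ x ∈ Main.Bic N M ξ, β lam x = β' lam x) ∧
      (∃ v, Main.Dominant N U v) ∧
      ∀ v β, Main.Dominant N U v → Main.BicFlow N M ξ β →
        ∃ (B C : VonNeumannAlgebra H) (π : B.toStarSubalgebra ≃⋆ₐ[ℂ] C.toStarSubalgebra),
          Main.FlowIso N M ξ U E β v B C π := by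
  have hE : Pool.Agent.W662.CB.IsCondExp M N E := Bridge.condExp_iff.1 hI.exp
  obtain ⟨U, hU⟩ := hTT H M ξ hI.cyc hI.sep
  obtain ⟨J, hJ⟩ := hconj H M ξ U hU hI.cyc
  have hInc : Inc N M ξ U J E :=
    { le := hI.le, unit := hI.unit, cyc := hI.cyc, sep := hI.sep, modular := hU,
      conj := hJ, exp := hE, inv := hI.inv,
      mod := pA8 H M N ξ U E hI.le hI.cyc hI.sep hU hE hI.inv }
  have hN : IsTypeIII1 N := hhom H N ξ hI.unit (fun x hx h => hI.sep x (hI.le x hx) h)
    (Bridge.type_imp h3)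
  have e : Main.Bic N M ξ = Pool.Agent.W662.CB.relBicentralizer N M ξ := Bridge.bic_eq hstr hInc
  obtain ⟨hβ, hβu⟩ := hflow H N M ξ U J E (hinc3 H N M ξ U J E hInc hN)
  refine ⟨U, Bridge.modular_iff.2 hU, fun U' hU' => ?_, ?_, ?_, ?_, ?_⟩
  · exact hTTu H M ξ U' U hI.cyc (Bridge.modular_iff.1 hU') hU
  · obtain ⟨β, hb⟩ := hβ
    exact ⟨β, (Bridge.bicFlow_iff hInc e).2 hb⟩
  · intro β β' h h' lam hlam x hx
    rw [e] at hx
    exact hβu β β' ((Bridge.bicFlow_iff hInc e).1 h) ((Bridge.bicFlow_iff hInc e).1 h') lam hlam x hx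
  · obtain ⟨v, W, hv, -⟩ := hdex H N M ξ U J E hInc hN
    exact ⟨v, Bridge.dominant_iff.2 hv⟩
  · intro v β hv hb
    obtain ⟨W, hW⟩ := hspat H N M ξ U J E v hInc (Bridge.dominant_iff.1 hv)
    obtain ⟨B, C, π, h⟩ := htrp H N M ξ U J E β v W hInc hN ((Bridge.bicFlow_iff hInc e).1 hb)
      (Bridge.dominant_iff.1 hv).toIsCocycle hW
    exact ⟨B, C, π, Bridge.iso_imp e h⟩

end Pool.Agent.Results.MP_357da3_an.BicentralizerFlow
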