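import Pool.Agent.H255.BC.All6
import Pool.Agent.H255.BC.Bridge

set_option autoImplicit false

open Pool.Agent.H255.BC

namespace Pool.Agent.Results.MP_357da3_an.ConnesBicentralizer

/-- **Connes' bicentralizer theorem.** Let `M` be a factor of type III₁ on `H`, let `ξ` be a unit
vector which is cyclic and separating for `M` and `φ = ω_ξ` its vector state (an arbitrary faithful
normal state in its GNS representation). Then the bicentralizer of `φ`, i.e. the set of all
`b ∈ M` such that `a_n b - b a_n → 0` strongly for all bounded sequences `(a_n)` in `M` with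
`‖a_n φ - φ a_n‖ → 0`, consists of the scalars. -/
theorem result (H : Type) [NormedAddCommGroup H] [InnerProductSpace ℂ H] [CompleteSpace H]
    (M : VonNeumannAlgebra H) (ξ : H) (hξ : ‖ξ‖ = 1) (hcyc : Main.Cyclic M ξ)
    (hsep : Main.Separating M ξ) (h3 : Main.TypeIIIone M) (b : H →L[ℂ] H)
    (hb : b ∈ Main.Bic M M ξ) : ∃ c : ℂ, b = c • (1 : H →L[ℂ] H) := by
  obtain ⟨U, hU⟩ := hTT H M ξ hcyc hsep
  obtain ⟨J, hJ⟩ := hconj H M ξ U hU hcyc
  rw [Bridge.bic_eq hstr (Bridge.inc_self hξ hcyc hsep hU hJ)] at hb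
  exact hD1 H M ξ U hξ hcyc hsep hU (hhom H M ξ hξ hsep (Bridge.type_imp h3)) b hb

end Pool.Agent.Results.MP_357da3_an.ConnesBicentralizer
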